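import Pool.Agent.Q137.FF.Fields

/-!
# Rational function fields suffice

A property of classes on finitely generated fields of characteristic `p` that satisfies the analogue of
Milnor's exact sequence for the affine line.
-/

set_option autoImplicit false

open Polynomial

universe w

namespace Pool.Agent.Q137.FF

/-- The closed points of the affine line over `K`: the monic irreducible polynomials. -/
def Pt (K : Type) [Field K] : Type := {f : K[X] // f.Monic ∧ Irreducible f}

instance (K : Type) [Field K] (f : Pt K) : Fact (Irreducible f.1) := ⟨f.2.2⟩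

/-- The residue field of a closed point. -/
abbrev Res {K : Type} [Field K] (f : Pt K) : Type := AdjoinRoot f.1

/-- For every field `K` and all integers `i`, `j` a vector space of classes, and the subspace of the
algebraic classes. -/
structure Theory (E : Type) [Field E] where
  /-- the classes -/
  I : ∀ (K : Type) [Field K], ℤ → ℤ → ModuleCat.{w} E
  /-- the algebraic classes -/
  alg : ∀ (K : Type) [Field K] (i j : ℤ), Submodule E (I K i j)

variable {E : Type} [Field E]

/-- All classes of the degree `(i, j)` of `K` are algebraic. -/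
def AllAlg (T : Theory.{w} E) (K : Type) [Field K] (i j : ℤ) : Prop := T.alg K i j = ⊤

/-- The classes on the field `K(t)`. -/
noncomputable def LineI (T : Theory.{w} E) (K : Type) [Field K] (i j : ℤ) : ModuleCat.{w} E :=
  T.I (FractionRing K[X]) i j

/-- The algebraic classes on the field `K(t)`. -/
noncomputable def lineAlg (T : Theory.{w} E) (K : Type) [Field K] (i j : ℤ) : Submodule E (LineI T K i j) :=
  T.alg (FractionRing K[X]) i j

/-- All classes of the degree `(i, j)` of `K(t)` are algebraic. -/
def AllLine (T : Theory.{w} E) (K : Type) [Field K] (i j : ℤ) : Prop :=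
  AllAlg T (FractionRing K[X]) i j

/-- The classes on the residue field of a closed point. -/
noncomputable def PtI (T : Theory.{w} E) {K : Type} [Field K] (f : Pt K) (i j : ℤ) : ModuleCat.{w} E :=
  T.I (Res f) i j

/-- The algebraic classes on the residue field of a closed point. -/
noncomputable def ptAlg (T : Theory.{w} E) {K : Type} [Field K] (f : Pt K) (i j : ℤ) :
    Submodule E (PtI T f i j) :=
  T.alg (Res f) i j

/-- All classes of the degree `(i, j)` of the residue field of a closed point are algebraic. -/
def AllPt (T : Theory.{w} E) {K : Type} [Field K] (f : Pt K) (i j : ℤ) : Prop :=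
  AllAlg T (Res f) i j

/-- The classes on `K(t)` with given specialization `b` and given residues `a f` (almost all of them zero)
exist. -/
def Lifts (T : Theory.{w} E) (K : Type) [Field K] (i j : ℤ)
    (s : LineI T K (i + 1) (j + 1) →ₗ[E] T.I K (i + 1) (j + 1))
    (r : ∀ f : Pt K, LineI T K (i + 1) (j + 1) →ₗ[E] PtI T f i j) : Prop :=
  ∀ (b : T.I K (i + 1) (j + 1)) (a : ∀ f : Pt K, PtI T f i j), {f | a f ≠ 0}.Finite →
    ∃ x, s x = b ∧ ∀ f, r f x = a f

/-- A class on `K(t)` is algebraic if and only if its specialization and its residues are algebraic. -/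
def Detects (T : Theory.{w} E) (K : Type) [Field K] (i j : ℤ)
    (s : LineI T K (i + 1) (j + 1) →ₗ[E] T.I K (i + 1) (j + 1))
    (r : ∀ f : Pt K, LineI T K (i + 1) (j + 1) →ₗ[E] PtI T f i j) : Prop :=
  ∀ x, x ∈ lineAlg T K (i + 1) (j + 1) ↔
    s x ∈ T.alg K (i + 1) (j + 1) ∧ ∀ f, r f x ∈ ptAlg T f i j

/-- Milnor's exact sequence for the affine line over `K`: there are a specialization map `s` and residue
maps `r f` such that the classes on `K(t)` with given specialization and given residues (almost all of
them zero) exist, and such that a class is algebraic if and only if its specialization and its residues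
are algebraic. -/
def Milnor (T : Theory.{w} E) (K : Type) [Field K] (i j : ℤ) : Prop :=
  ∃ (s : LineI T K (i + 1) (j + 1) →ₗ[E] T.I K (i + 1) (j + 1))
    (r : ∀ f : Pt K, LineI T K (i + 1) (j + 1) →ₗ[E] PtI T f i j),
    Lifts T K i j s r ∧ Detects T K i j s r

/-- All classes of the degree `(i, j)` of `𝔽_p(x_1, …, x_n)` are algebraic. -/
def AllRat (T : Theory.{w} E) (p : ℕ) [Fact p.Prime] (n : ℕ) (i j : ℤ) : Prop :=
  AllAlg T (Rat p n) i j

/-- All classes of the degree `(i, j)` are algebraic, for all the finite extensions of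
`𝔽_p(x_1, …, x_m)`. -/
def AllFG (T : Theory.{w} E) (p : ℕ) [Fact p.Prime] (m : ℕ) (i j : ℤ) : Prop :=
  ∀ (L : Type) [Field L], FG p m L → AllAlg T L i j

/-- The properties of the theory that are used. -/
structure IsTheory (p : ℕ) [Fact p.Prime] (T : Theory.{w} E) : Prop where
  iso : ∀ (K L : Type) [Field K] [Field L], (K ≃+* L) → ∀ i j, AllAlg T K i j → AllAlg T L i j
  prime : ∀ i j, AllAlg T (ZMod p) i j
  milnor : ∀ (m : ℕ) (K : Type) [Field K], FG p m K → ∀ i j, Milnor T K i j

variable {p : ℕ} [Fact p.Prime] {T : Theory.{w} E}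

/-- The affine line over one field. -/
theorem line_iff {K : Type} [Field K] {i j : ℤ} (h : Milnor T K i j) :
    AllLine T K (i + 1) (j + 1) ↔ AllAlg T K (i + 1) (j + 1) ∧ ∀ f : Pt K, AllPt T f i j := by
  classical
  obtain ⟨s, r, h1, h2⟩ := h
  constructor
  · intro h3
    constructor
    · refine Submodule.eq_top_iff'.2 fun b => ?_
      obtain ⟨x, hx, -⟩ := h1 b (fun _ => 0) (by simp)
      have h4 : x ∈ lineAlg T K (i + 1) (j + 1) := by
        rw [show lineAlg T K (i + 1) (j + 1) = ⊤ from h3]; trivial
      rw [← hx]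
      exact ((h2 x).1 h4).1
    · intro f
      refine Submodule.eq_top_iff'.2 fun a => ?_
      obtain ⟨x, -, hx⟩ := h1 0 (Function.update (fun _ => 0) f a) ((Set.finite_singleton f).subset
        fun g hg => by
          by_contra hgf
          exact hg (Function.update_of_ne hgf _ _))
      have h4 : x ∈ lineAlg T K (i + 1) (j + 1) := by
        rw [show lineAlg T K (i + 1) (j + 1) = ⊤ from h3]; trivial
      have h5 := ((h2 x).1 h4).2 f
      rwa [hx f, Function.update_self] at h5
  · rintro ⟨h3, h4⟩
    refine Submodule.eq_top_iff'.2 fun x => (h2 x).2 ⟨?_, fun f => ?_⟩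
    · rw [show T.alg K (i + 1) (j + 1) = ⊤ from h3]; trivial
    · rw [show ptAlg T f i j = ⊤ from h4 f]; trivial

variable (h : IsTheory p T)

include h

/-- Rational function fields in the degree `(i + 1, j + 1)`, and all fields in the degree `(i, j)`. -/
theorem rat_iff (n : ℕ) (i j : ℤ) : AllRat T p n (i + 1) (j + 1) ↔
    ∀ m < n, AllFG T p m i j := by
  induction n with
  | zero =>
    obtain ⟨e⟩ := rat_zero p
    exact iff_of_true (h.iso _ _ e _ _ (h.prime _ _)) fun m hm => absurd hm (Nat.not_lt_zero m)
  | succ n ih =>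
    obtain ⟨e⟩ := rat_succ p n
    have hn : FG p n (Rat p n) := ⟨RingHom.id _, RingHom.Finite.id _⟩
    have h1 : AllRat T p (n + 1) (i + 1) (j + 1) ↔ AllLine T (Rat p n) (i + 1) (j + 1) :=
      ⟨h.iso _ _ e _ _, h.iso _ _ e.symm _ _⟩
    rw [h1, line_iff (h.milnor n _ hn i j), show AllAlg T (Rat p n) (i + 1) (j + 1) ↔ _ from ih]
    constructor
    · rintro ⟨h2, h3⟩ m hm L _ hL
      rcases Nat.lt_succ_iff_lt_or_eq.1 hm with h4 | rfl
      · exact h2 m h4 L hL
      · obtain ⟨f, hf, hirr, ⟨e'⟩⟩ := exists_adjoinRoot p hL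
        haveI : Fact (Irreducible f) := ⟨hirr⟩
        exact h.iso _ _ e' _ _ (h3 ⟨f, hf, hirr⟩)
    · intro h2
      exact ⟨fun m hm L _ hL => h2 m (Nat.lt_succ_of_lt hm) L hL,
        fun f => h2 n (Nat.lt_succ_self n) (Res f) (fg_adjoinRoot p f.1 f.2.1)⟩

/-- Rational function fields suffice, for every difference `d = i - j`. -/
theorem all_iff_rat (d : ℤ) :
    (∀ (m : ℕ) (i : ℤ), AllFG T p m i (i - d)) ↔
      ∀ (n : ℕ) (i : ℤ), AllRat T p n i (i - d) := by
  constructor
  · intro h1 n i
    exact h1 n i (Rat p n) ⟨RingHom.id _, RingHom.Finite.id _⟩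
  · intro h1 m i
    have h2 := h1 (m + 1) (i + 1)
    rw [show i + 1 - d = (i - d) + 1 by ring] at h2
    exact (rat_iff h (m + 1) i (i - d)).1 h2 m (Nat.lt_succ_self m)

end Pool.Agent.Q137.FF
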